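import Mathlib

/-!
# Binary linear codes with many disjoint hitting sets and no thin hitting set (MP_d2d48a_co)

For all `L, k` we build a binary linear code with `k + 1` pairwise disjoint hitting sets such that
for every hitting set `T` some codeword `c` has at least `L` nonzero coordinates in `T` and at most
`k + 1` nonzero coordinates outside `T`.

The coordinates are the edges of the complete `(k+1)`-ary tree of depth `L` and, for every path
from the root to a leaf, `k + 1` private coordinates.  The code is spanned by the stars (the edges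
from an inner vertex to its children) and by the paths, every path together with its private
coordinates.
-/

namespace Pool.Agent.Results.MP_d2d48a_co.TreeCodes

open Finset

/-- The Hamming weight of `c`. -/
def wt {ι : Type*} [Fintype ι] (c : ι → ZMod 2) : ℕ :=
  (univ.filter fun i => c i ≠ 0).card

/-- The Hamming weight of the projection of `c` onto the coordinates in `S`. -/
def wtOn {ι : Type*} (c : ι → ZMod 2) (S : Finset ι) : ℕ :=
  (S.filter fun i => c i ≠ 0).card

/-- `S` is a hitting set of the code `C`: every nonzero codeword has a nonzero coordinate in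
`S`. -/
def IsHitting {ι : Type*} (C : Submodule (ZMod 2) (ι → ZMod 2)) (S : Finset ι) : Prop :=
  ∀ c ∈ C, c ≠ 0 → ∃ i ∈ S, c i ≠ 0

/-- `C` has `d` pairwise disjoint hitting sets. -/
def HasDisjointHitting {ι : Type*} (C : Submodule (ZMod 2) (ι → ZMod 2)) (d : ℕ) : Prop :=
  ∃ S : Fin d → Finset ι, (Pairwise fun i j => Disjoint (S i) (S j)) ∧ ∀ i, IsHitting C (S i)

/-- The displayed inequalities of the problem, for the set `S`. -/
def IsThick {ι : Type*} [Fintype ι] (C : Submodule (ZMod 2) (ι → ZMod 2)) (α : ℝ)
    (S : Finset ι) : Prop :=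
  ∀ c ∈ C, c ≠ 0 → α * (wt c : ℝ) ≤ (wtOn c S : ℝ) ∧ wtOn c S < wt c

/-! ### Change of the index type -/

section Transfer

variable {ι κ : Type*} [Fintype ι] [Fintype κ]

theorem wt_comp (e : ι ≃ κ) (c : ι → ZMod 2) : wt (c ∘ e.symm) = wt c := by
  classical
  unfold wt
  have h : (univ : Finset ι) = univ.map e.symm.toEmbedding := by
    rw [Finset.map_univ_equiv]
  rw [h, Finset.filter_map, Finset.card_map]
  rfl

omit [Fintype ι] [Fintype κ] in
theorem wtOn_comp (e : ι ≃ κ) (c : ι → ZMod 2) (S : Finset κ) :
    wtOn (c ∘ e.symm) S = wtOn c (S.map e.symm.toEmbedding) := by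
  classical
  unfold wtOn
  rw [Finset.filter_map, Finset.card_map]
  rfl

theorem transfer (e : ι ≃ κ) (C : Submodule (ZMod 2) (ι → ZMod 2)) (α : ℝ) (d : ℕ)
    (h1 : HasDisjointHitting C d) (h2 : ¬ ∃ S, IsThick C α S) :
    ∃ C' : Submodule (ZMod 2) (κ → ZMod 2),
      HasDisjointHitting C' d ∧ ¬ ∃ S, IsThick C' α S := by
  classical
  refine ⟨C.comap (LinearMap.funLeft (ZMod 2) (ZMod 2) e), ?_, ?_⟩
  · obtain ⟨S, hS, hh⟩ := h1
    refine ⟨fun i => (S i).map e.toEmbedding, ?_, ?_⟩
    · intro i j hij
      exact (Finset.disjoint_map _).2 (hS hij)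
    · intro i c hc hc0
      have hc' : c ∘ e ∈ C := hc
      have h0 : c ∘ e ≠ 0 := by
        intro h
        apply hc0
        funext x
        have := congrFun h (e.symm x)
        simpa using this
      obtain ⟨j, hj, hjc⟩ := hh i _ hc' h0
      exact ⟨e j, by simpa using hj, hjc⟩
  · rintro ⟨S, hS⟩
    apply h2
    refine ⟨S.map e.symm.toEmbedding, ?_⟩
    intro c hc hc0
    have hm : c ∘ e.symm ∈ C.comap (LinearMap.funLeft (ZMod 2) (ZMod 2) e) := by
      have : (LinearMap.funLeft (ZMod 2) (ZMod 2) e) (c ∘ e.symm) = c := by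
        funext x
        simp [LinearMap.funLeft]
      rw [Submodule.mem_comap, this]
      exact hc
    have h0 : c ∘ e.symm ≠ 0 := by
      intro h
      apply hc0
      funext x
      have := congrFun h (e x)
      simpa using this
    have := hS _ hm h0
    rw [wt_comp, wtOn_comp] at this
    exact this

end Transfer

/-! ### The tree codes -/

section Tree

variable {L k : ℕ}

/-- The first `l` letters of the word `P`, followed by zeros. -/
def trunc (l : ℕ) (P : Fin L → Fin (k + 1)) : Fin L → Fin (k + 1) :=
  fun j => if j.1 < l then P j else 0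

theorem exists_path (f : Fin L → (Fin L → Fin (k + 1)) → Fin (k + 1)) :
    ∃ P : Fin L → Fin (k + 1), ∀ l : Fin L, P l = f l (trunc l.1 P) := by
  have key : ∀ m : ℕ, ∃ P : Fin L → Fin (k + 1),
      ∀ l : Fin L, l.1 < m → P l = f l (trunc l.1 P) := by
    intro m
    induction m with
    | zero => exact ⟨fun _ => 0, fun l hl => absurd hl (Nat.not_lt_zero _)⟩
    | succ m ih =>
      obtain ⟨P, hP⟩ := ih
      by_cases hm : m < L
      · refine ⟨Function.update P ⟨m, hm⟩ (f ⟨m, hm⟩ (trunc m P)), ?_⟩
        have ht : ∀ l : ℕ, l ≤ m →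
            trunc l (Function.update P ⟨m, hm⟩ (f ⟨m, hm⟩ (trunc m P))) = trunc l P := by
          intro l hl
          funext j
          unfold trunc
          by_cases hj : j.1 < l
          · have hne : j ≠ ⟨m, hm⟩ := by
              intro h
              have := congrArg Fin.val h
              simp at this
              omega
            simp [hj, Function.update_of_ne hne]
          · simp [hj]
        intro l hl
        rw [ht l.1 (by omega)]
        by_cases hlm : l = ⟨m, hm⟩
        · subst hlm
          simp
        · rw [Function.update_of_ne hlm]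
          apply hP
          have : l.1 ≠ m := fun h => hlm (Fin.ext h)
          omega
      · refine ⟨P, fun l _ => hP l (by omega)⟩
  obtain ⟨P, hP⟩ := key L
  exact ⟨P, fun l => hP l l.2⟩

/-- The coordinates: the edges of the tree (`inl (l, w, a)` is the edge from the vertex `w` of
level `l` to its child number `a`) and the private coordinates of the paths. -/
abbrev Coord (L k : ℕ) : Type :=
  (Fin L × (Fin L → Fin (k + 1)) × Fin (k + 1)) ⊕ ((Fin L → Fin (k + 1)) × Fin (k + 1))

/-- The codeword with coefficients `p.1` at the stars and `p.2` at the paths. -/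
def enc (L k : ℕ) :
    ((Fin L × (Fin L → Fin (k + 1)) → ZMod 2) × ((Fin L → Fin (k + 1)) → ZMod 2)) →ₗ[ZMod 2]
      (Coord L k → ZMod 2) where
  toFun p e :=
    Sum.elim
      (fun x : Fin L × (Fin L → Fin (k + 1)) × Fin (k + 1) =>
        p.1 (x.1, x.2.1) +
          ∑ P : Fin L → Fin (k + 1), if trunc x.1.1 P = x.2.1 ∧ P x.1 = x.2.2 then p.2 P else 0)
      (fun x : (Fin L → Fin (k + 1)) × Fin (k + 1) => p.2 x.1) e
  map_add' p q := by
    funext e
    rcases e with x | x
    · simp only [Prod.fst_add, Prod.snd_add, Pi.add_apply, Sum.elim_inl]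
      have : ∀ P : Fin L → Fin (k + 1),
          (if trunc x.1.1 P = x.2.1 ∧ P x.1 = x.2.2 then p.2 P + q.2 P else 0) =
          (if trunc x.1.1 P = x.2.1 ∧ P x.1 = x.2.2 then p.2 P else 0) +
          (if trunc x.1.1 P = x.2.1 ∧ P x.1 = x.2.2 then q.2 P else 0) := by
        intro P
        split_ifs <;> simp
      rw [Finset.sum_congr rfl fun P _ => this P, Finset.sum_add_distrib]
      ring
    · simp
  map_smul' r p := by
    funext e
    rcases e with x | x
    · simp only [Prod.smul_fst, Prod.smul_snd, Pi.smul_apply, Sum.elim_inl, smul_eq_mul,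
        RingHom.id_apply]
      rw [mul_add, Finset.mul_sum]
      congr 1
      refine Finset.sum_congr rfl fun P _ => ?_
      split_ifs <;> simp
    · simp

theorem enc_inl (p) (l : Fin L) (w : Fin L → Fin (k + 1)) (a : Fin (k + 1)) :
    enc L k p (Sum.inl (l, w, a)) =
      p.1 (l, w) + ∑ P : Fin L → Fin (k + 1), if trunc l.1 P = w ∧ P l = a then p.2 P else 0 :=
  rfl

theorem enc_inr (p) (P : Fin L → Fin (k + 1)) (a : Fin (k + 1)) :
    enc L k p (Sum.inr (P, a)) = p.2 P :=
  rfl

/-- The tree code. -/
def code (L k : ℕ) : Submodule (ZMod 2) (Coord L k → ZMod 2) := LinearMap.range (enc L k)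

/-- The colour of a coordinate. -/
def colOf (L k : ℕ) : Coord L k → Fin (k + 1)
  | Sum.inl x => x.2.2
  | Sum.inr x => x.2

/-- The coordinates of colour `i`. -/
def colour (L k : ℕ) (i : Fin (k + 1)) : Finset (Coord L k) :=
  univ.filter fun e => colOf L k e = i

theorem colour_hitting (i : Fin (k + 1)) : IsHitting (code L k) (colour L k i) := by
  rintro c ⟨p, rfl⟩ hc0
  by_contra hcon
  push Not at hcon
  apply hc0
  have h2 : p.2 = 0 := by
    funext P
    have := hcon (Sum.inr (P, i)) (Finset.mem_filter.2 ⟨mem_univ _, rfl⟩)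
    rw [enc_inr] at this
    exact this
  have h1 : p.1 = 0 := by
    funext x
    have := hcon (Sum.inl (x.1, x.2, i)) (Finset.mem_filter.2 ⟨mem_univ _, rfl⟩)
    rw [enc_inl] at this
    simpa [h2] using this
  have : p = 0 := Prod.ext h1 h2
  rw [this, map_zero]

theorem colour_disjoint : Pairwise fun i j => Disjoint (colour L k i) (colour L k j) := by
  intro i j hij
  rw [Finset.disjoint_left]
  intro e he he'
  apply hij
  simp only [colour, mem_filter, mem_univ, true_and] at he he'
  exact he.symm.trans he'

/-- Every set that meets every nonzero codeword contains all edges of a path. -/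
theorem exists_full_path (T : Finset (Coord L k)) (hT : IsHitting (code L k) T) :
    ∃ P : Fin L → Fin (k + 1), ∀ l : Fin L, Sum.inl (l, trunc l.1 P, P l) ∈ T := by
  classical
  have star : ∀ (l : Fin L) (w : Fin L → Fin (k + 1)), ∃ a : Fin (k + 1),
      (Sum.inl (l, w, a) : Coord L k) ∈ T := by
    intro l w
    have hv : ∀ (l' : Fin L) (w' : Fin L → Fin (k + 1)) (a : Fin (k + 1)),
        enc L k (Pi.single (l, w) 1, 0) (Sum.inl (l', w', a)) =
          if (l', w') = (l, w) then 1 else 0 := by
      intro l' w' a
      rw [enc_inl]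
      simp [Pi.single_apply]
    have hne : enc L k (Pi.single (l, w) 1, 0) ≠ 0 := by
      intro h
      have := congrFun h (Sum.inl (l, w, 0))
      rw [hv] at this
      simp at this
    obtain ⟨e, heT, he⟩ := hT _ ⟨_, rfl⟩ hne
    rcases e with ⟨l', w', a⟩ | ⟨P, a⟩
    · rw [hv] at he
      by_cases h : (l', w') = (l, w)
      · obtain ⟨rfl, rfl⟩ := Prod.ext_iff.1 h
        exact ⟨a, heT⟩
      · rw [if_neg h] at he
        exact absurd rfl he
    · rw [enc_inr] at he
      exact absurd rfl he
  choose f hf using star
  obtain ⟨P, hP⟩ := exists_path f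
  refine ⟨P, fun l => ?_⟩
  have := hf l (trunc l.1 P)
  rwa [← hP l] at this

theorem no_thick (α : ℝ) (hL : (k + 1 : ℝ) < α * L) (hα : 0 < α) :
    ¬ ∃ S, IsThick (code L k) α S := by
  classical
  rintro ⟨S, hS⟩
  have hT : IsHitting (code L k) Sᶜ := by
    intro c hc hc0
    by_contra hcon
    push Not at hcon
    have := (hS c hc hc0).2
    have h2 : wt c ≤ wtOn c S := by
      unfold wt wtOn
      apply Finset.card_le_card
      intro i hi
      rw [mem_filter] at hi ⊢
      refine ⟨?_, hi.2⟩
      by_contra hiS
      exact hi.2 (hcon i (by simpa using hiS))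
    omega
  obtain ⟨P, hP⟩ := exists_full_path _ hT
  have hinl : ∀ (l : Fin L) (w : Fin L → Fin (k + 1)) (a : Fin (k + 1)),
      enc L k (0, Pi.single P 1) (Sum.inl (l, w, a)) =
        if trunc l.1 P = w ∧ P l = a then 1 else 0 := by
    intro l w a
    rw [enc_inl]
    have : ∀ P' : Fin L → Fin (k + 1),
        (if trunc l.1 P' = w ∧ P' l = a then
          (Pi.single P (1 : ZMod 2) : (Fin L → Fin (k + 1)) → ZMod 2) P' else 0) =
        if P' = P then (if trunc l.1 P = w ∧ P l = a then 1 else 0) else 0 := by
      intro P'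
      by_cases h : P' = P
      · subst h
        simp
      · simp [h]
    simp only [this]
    simp
  have hinr : ∀ (P' : Fin L → Fin (k + 1)) (a : Fin (k + 1)),
      enc L k (0, Pi.single P 1) (Sum.inr (P', a)) = if P' = P then 1 else 0 := by
    intro P' a
    rw [enc_inr]
    simp [Pi.single_apply]
  have hne : enc L k (0, Pi.single P 1) ≠ 0 := by
    intro h
    have := congrFun h (Sum.inr (P, 0))
    rw [hinr] at this
    simp at this
  have h1 := (hS _ ⟨_, rfl⟩ hne).1
  have hlow : L ≤ wt (enc L k (0, Pi.single P 1)) := by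
    unfold wt
    have hinj : Function.Injective
        (fun l : Fin L => (Sum.inl (l, trunc l.1 P, P l) : Coord L k)) := by
      intro a b hab
      simp only [Sum.inl.injEq, Prod.mk.injEq] at hab
      exact hab.1
    calc L = (univ.image fun l : Fin L => (Sum.inl (l, trunc l.1 P, P l) : Coord L k)).card := by
          rw [Finset.card_image_of_injective _ hinj]
          simp
      _ ≤ _ := by
          apply Finset.card_le_card
          intro e he
          obtain ⟨l, -, rfl⟩ := Finset.mem_image.1 he
          rw [mem_filter]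
          refine ⟨mem_univ _, ?_⟩
          rw [hinl]
          simp
  have hup : wtOn (enc L k (0, Pi.single P 1)) S ≤ k + 1 := by
    unfold wtOn
    calc _ ≤ (univ.image fun a : Fin (k + 1) => (Sum.inr (P, a) : Coord L k)).card := by
          apply Finset.card_le_card
          intro e he
          rw [mem_filter] at he
          rcases e with ⟨l, w, a⟩ | ⟨P', a⟩
          · exfalso
            have h := he.2
            rw [hinl] at h
            by_cases hc : trunc l.1 P = w ∧ P l = a
            · obtain ⟨rfl, rfl⟩ := hc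
              have := hP l
              rw [Finset.mem_compl] at this
              exact this he.1
            · rw [if_neg hc] at h
              exact h rfl
          · have h := he.2
            rw [hinr] at h
            by_cases hc : P' = P
            · subst hc
              exact Finset.mem_image.2 ⟨a, mem_univ _, rfl⟩
            · rw [if_neg hc] at h
              exact absurd rfl h
      _ ≤ (univ : Finset (Fin (k + 1))).card := Finset.card_image_le
      _ = k + 1 := by simp
  have h3 : α * (L : ℝ) ≤ α * (wt (enc L k (0, Pi.single P 1)) : ℝ) := by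
    apply mul_le_mul_of_nonneg_left _ hα.le
    exact_mod_cast hlow
  have h4 : (wtOn (enc L k (0, Pi.single P 1)) S : ℝ) ≤ (k : ℝ) + 1 := by
    exact_mod_cast hup
  linarith

end Tree

/-- For every `α > 0` and every `d ≥ 1` there is a binary linear code with `d` pairwise disjoint
hitting sets for which no set `S` of coordinates satisfies `α wt(c) ≤ wt(c_S) < wt(c)` for all
nonzero codewords `c`; in particular Q1 is false (its negation is the second part). -/
theorem result :
    (∀ α : ℝ, 0 < α → ∀ d : ℕ, 1 ≤ d →
      ∃ n : ℕ, 1 ≤ n ∧ ∃ C : Submodule (ZMod 2) (Fin n → ZMod 2),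
        HasDisjointHitting C d ∧ ¬ ∃ S : Finset (Fin n), IsThick C α S) ∧
    ¬ (∀ α : ℝ, α < 1 → ∃ d : ℕ, 1 ≤ d ∧
      ∀ n : ℕ, 1 ≤ n → ∀ C : Submodule (ZMod 2) (Fin n → ZMod 2),
        HasDisjointHitting C d → ∃ S : Finset (Fin n), IsThick C α S) := by
  have main : ∀ α : ℝ, 0 < α → ∀ d : ℕ, 1 ≤ d →
      ∃ n : ℕ, 1 ≤ n ∧ ∃ C : Submodule (ZMod 2) (Fin n → ZMod 2),
        HasDisjointHitting C d ∧ ¬ ∃ S : Finset (Fin n), IsThick C α S := by
    intro α hα d hd
    obtain ⟨k, rfl⟩ : ∃ k, d = k + 1 := ⟨d - 1, by omega⟩
    obtain ⟨L, hL⟩ := exists_nat_gt ((k + 1 : ℝ) / α)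
    have hL' : (k + 1 : ℝ) < α * L := by
      rw [div_lt_iff₀ hα] at hL
      linarith
    refine ⟨Fintype.card (Coord L k), ?_, ?_⟩
    · have : Nonempty (Coord L k) := ⟨Sum.inr (fun _ => 0, 0)⟩
      exact Fintype.card_pos
    · exact transfer (Fintype.equivFin (Coord L k)) (code L k) α (k + 1)
        ⟨colour L k, colour_disjoint, colour_hitting⟩ (no_thick α hL' hα)
  refine ⟨main, ?_⟩
  intro h
  obtain ⟨d, hd, hC⟩ := h (1 / 2) (by norm_num)
  obtain ⟨n, hn, C, h1, h2⟩ := main (1 / 2) (by norm_num) d hd
  exact h2 (hC n hn C h1)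

end Pool.Agent.Results.MP_d2d48a_co.TreeCodes
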